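import Mathlib

set_option autoImplicit false

open scoped ContDiff
open Real

namespace Pool.Agent.H906R2.Frenet

/-- Smooth closed curves in `ℝⁿ`: `C^∞` maps `γ : ℝ → ℝⁿ` with `γ (t + 2π) = γ t`. -/
def IsClosedCurve {n : ℕ} (γ : ℝ → EuclideanSpace ℝ (Fin n)) : Prop :=
  ContDiff ℝ ∞ γ ∧ Function.Periodic γ (2 * π)

/-- A curve in `ℝⁿ` is nondegenerate if its first `n` derivatives are linearly independent at
every parameter. -/
def Nondegenerate {n : ℕ} (γ : ℝ → EuclideanSpace ℝ (Fin n)) : Prop :=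
  ∀ t : ℝ, LinearIndependent ℝ (fun i : Fin n => iteratedDeriv (i + 1) γ t)

/-- The plane unit circle traversed `m` times, `c_m(t) = (cos mt, sin mt, 0, …, 0)`, in `ℝⁿ`. -/
noncomputable def circ (n m : ℕ) (t : ℝ) : EuclideanSpace ℝ (Fin n) :=
  WithLp.toLp 2 fun i : Fin n =>
    if (i : ℕ) = 0 then cos (m * t) else if (i : ℕ) = 1 then sin (m * t) else 0

/-- Every `C^∞`-neighbourhood of `c_m` contains a nondegenerate closed curve in `ℝⁿ`: for every
order `k` and every `ε > 0` there is a nondegenerate closed curve all whose derivatives of order at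
most `k` are everywhere `ε`-close to those of `c_m`. -/
def Perturbable (n m : ℕ) : Prop :=
  ∀ (k : ℕ) (ε : ℝ), 0 < ε → ∃ γ : ℝ → EuclideanSpace ℝ (Fin n),
    IsClosedCurve γ ∧ Nondegenerate γ ∧
      ∀ j ≤ k, ∀ t : ℝ, ‖iteratedDeriv j γ t - iteratedDeriv j (circ n m) t‖ < ε

/-- `μ(n)`: the least `m ≥ 1` such that every `C^∞`-neighbourhood of `c_m` contains a
nondegenerate closed curve in `ℝⁿ`. -/
noncomputable def mu (n : ℕ) : ℕ := sInf {m : ℕ | 1 ≤ m ∧ Perturbable n m}

end Pool.Agent.H906R2.Frenet
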