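import Mathlib

set_option autoImplicit false

open Real Set Filter MeasureTheory
open scoped Topology InnerProductSpace

namespace Pool.Agent.H906R2.Frenet

variable {E : Type*} [NormedAddCommGroup E] [InnerProductSpace ℝ E]

theorem angle_unit {u w : E} (hu : ‖u‖ = 1) (hw : ‖w‖ = 1) :
    InnerProductGeometry.angle u w = arccos ⟪u, w⟫_ℝ := by
  unfold InnerProductGeometry.angle
  rw [hu, hw]; simp

theorem angle_eq_arcsin {u w : E} (hu : ‖u‖ = 1) (hw : ‖w‖ = 1) :
    InnerProductGeometry.angle u w = 2 * arcsin (‖u - w‖ / 2) := by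
  have h1 : ‖u - w‖ ^ 2 = 2 - 2 * ⟪u, w⟫_ℝ := by
    rw [norm_sub_sq_real, hu, hw]; ring
  have h2 : ‖u - w‖ / 2 ≤ 1 := by
    have := norm_sub_le u w
    rw [hu, hw] at this
    linarith
  have h0 : 0 ≤ ‖u - w‖ / 2 := by positivity
  apply Real.injOn_cos
  · exact ⟨InnerProductGeometry.angle_nonneg _ _, InnerProductGeometry.angle_le_pi _ _⟩
  · constructor
    · have := Real.arcsin_nonneg.2 h0
      positivity
    · have := Real.arcsin_le_pi_div_two (‖u - w‖ / 2)
      linarith
  · rw [InnerProductGeometry.cos_angle, hu, hw, Real.cos_two_mul]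
    have h3 := Real.sin_sq_add_cos_sq (arcsin (‖u - w‖ / 2))
    rw [Real.sin_arcsin (by linarith) h2] at h3
    linear_combination (-2) * h3 + (1 / 2) * h1

/-- Asymptotics of the angle along a differentiable unit vector field. -/
theorem eventually_angle_lt {T : ℝ → E} {T' : E} {x r : ℝ} (hT : HasDerivAt T T' x)
    (h1 : ∀ t, ‖T t‖ = 1) (hr : ‖T'‖ < r) :
    ∀ᶠ z in 𝓝[>] x, InnerProductGeometry.angle (T x) (T z) < r * (z - x) := by
  obtain ⟨r', hr1, hr2⟩ := exists_between hr
  have hr'0 : 0 < r' := lt_of_le_of_lt (norm_nonneg _) hr1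
  obtain ⟨ε, hε0, hε⟩ : ∃ ε : ℝ, 0 < ε ∧ (1 + ε) * r' < r := by
    refine ⟨(r - r') / (2 * r'), by apply div_pos <;> linarith, ?_⟩
    have : (1 + (r - r') / (2 * r')) * r' = r' + (r - r') / 2 := by field_simp
    rw [this]; linarith
  have e1 : ∀ᶠ z in 𝓝 x, ‖T z - T x - (z - x) • T'‖ ≤ (r' - ‖T'‖) * ‖z - x‖ :=
    (hasDerivAt_iff_isLittleO.1 hT).def (by linarith)
  have e2 : ∀ᶠ y in 𝓝 (0 : ℝ), ‖arcsin y - arcsin 0 - (y - 0) • (1 : ℝ)‖ ≤ ε * ‖y - 0‖ := by
    have h : HasDerivAt arcsin 1 0 := by
      have := Real.hasDerivAt_arcsin (x := 0) (by norm_num) (by norm_num)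
      simpa using this
    exact (hasDerivAt_iff_isLittleO.1 h).def hε0
  have hc : Tendsto (fun z => ‖T x - T z‖ / 2) (𝓝 x) (𝓝 0) := by
    have : ContinuousAt (fun z => ‖T x - T z‖ / 2) x := by
      have := hT.continuousAt
      fun_prop
    have h2 := this.tendsto
    simpa using h2
  have e3 := hc.eventually e2
  filter_upwards [nhdsWithin_le_nhds e1, nhdsWithin_le_nhds e3, self_mem_nhdsWithin] with z k1 k2 k3
  have hz : 0 < z - x := sub_pos.2 k3
  rw [Real.norm_eq_abs, abs_of_pos hz] at k1
  have k4 : ‖T x - T z‖ ≤ r' * (z - x) := by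
    rw [norm_sub_rev]
    have : T z - T x = (T z - T x - (z - x) • T') + (z - x) • T' := by abel
    rw [this]
    refine (norm_add_le _ _).trans ?_
    rw [norm_smul, Real.norm_eq_abs, abs_of_pos hz]
    linarith
  rw [angle_eq_arcsin (h1 x) (h1 z)]
  simp only [Real.arcsin_zero, sub_zero, smul_eq_mul, mul_one] at k2
  have h0 : 0 ≤ ‖T x - T z‖ / 2 := by positivity
  rw [Real.norm_eq_abs, Real.norm_eq_abs, abs_of_nonneg h0] at k2
  have k5 := (abs_le.1 k2).2
  calc 2 * arcsin (‖T x - T z‖ / 2) ≤ (1 + ε) * ‖T x - T z‖ := by linarith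
    _ ≤ (1 + ε) * (r' * (z - x)) := mul_le_mul_of_nonneg_left k4 (by linarith)
    _ = ((1 + ε) * r') * (z - x) := by ring
    _ < r * (z - x) := mul_lt_mul_of_pos_right hε hz

/-- The angle between two values of a unit vector field is at most the length of the path. -/
theorem angle_le_integral {T T' : ℝ → E} (hT : ∀ t, HasDerivAt T (T' t) t) (hc : Continuous T')
    (h1 : ∀ t, ‖T t‖ = 1) {a b : ℝ} (hab : a ≤ b) :
    InnerProductGeometry.angle (T a) (T b) ≤ ∫ t in a..b, ‖T' t‖ := by
  have hTc : Continuous T := continuous_iff_continuousAt.2 fun t => (hT t).continuousAt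
  have hcont : ContinuousOn (fun t => InnerProductGeometry.angle (T a) (T t)) (Icc a b) := by
    have : (fun t => InnerProductGeometry.angle (T a) (T t)) = fun t => arccos ⟪T a, T t⟫_ℝ :=
      funext fun t => angle_unit (h1 a) (h1 t)
    rw [this]
    apply Continuous.continuousOn
    fun_prop
  have hB : ∀ x, HasDerivAt (fun t => ∫ s in a..t, ‖T' s‖) ‖T' x‖ x := fun x =>
    intervalIntegral.integral_hasDerivAt_right (hc.norm.intervalIntegrable _ _)
      (hc.norm.stronglyMeasurableAtFilter _ _) hc.norm.continuousAt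
  have key := image_le_of_liminf_slope_right_le_deriv_boundary
    (f := fun t => InnerProductGeometry.angle (T a) (T t)) (B := fun t => ∫ s in a..t, ‖T' s‖)
    (B' := fun t => ‖T' t‖) hcont ?_ ?_ (fun x _ => (hB x).hasDerivWithinAt) ?_
    (right_mem_Icc.2 hab)
  · exact key
  · have : InnerProductGeometry.angle (T a) (T a) = 0 := by
      apply InnerProductGeometry.angle_self
      intro h
      have := h1 a
      rw [h, norm_zero] at this
      exact zero_ne_one this
    simp [this]
  · exact fun x _ => (hB x).continuousAt.continuousWithinAt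
  · intro x _ r hr
    apply Filter.Eventually.frequently
    filter_upwards [eventually_angle_lt (hT x) h1 hr, self_mem_nhdsWithin] with z hz hz2
    have hz3 : 0 < z - x := sub_pos.2 hz2
    rw [slope_def_field, div_lt_iff₀ hz3]
    have := InnerProductGeometry.angle_le_angle_add_angle (T a) (T x) (T z)
    linarith

/-- Fenchel's inequality for closed unit vector fields having the origin in their convex hull. -/
theorem fenchel {T T' : ℝ → E} (hT : ∀ t, HasDerivAt T (T' t) t) (hc : Continuous T')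
    (h1 : ∀ t, ‖T t‖ = 1) {v : ℝ → ℝ} (hv : Continuous v) (hpos : ∀ t, 0 < v t) {L : ℝ}
    (hL : 0 < L) (hper : T L = T 0) (hint : ∫ t in (0 : ℝ)..L, v t • T t = 0) [CompleteSpace E] :
    2 * π ≤ ∫ t in (0 : ℝ)..L, ‖T' t‖ := by
  have hTc : Continuous T := continuous_iff_continuousAt.2 fun t => (hT t).continuousAt
  by_contra hlt
  push Not at hlt
  have hii : ∀ a b, IntervalIntegrable (fun t => ‖T' t‖) volume a b := fun a b =>
    hc.norm.intervalIntegrable _ _
  set ℓ := ∫ t in (0 : ℝ)..L, ‖T' t‖ with hℓ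
  have hℓ0 : 0 ≤ ℓ := intervalIntegral.integral_nonneg hL.le (fun t _ => norm_nonneg _)
  -- the midpoint
  obtain ⟨c, hc0, hcL⟩ : ∃ c ∈ Icc 0 L, ∫ t in (0 : ℝ)..c, ‖T' t‖ = ℓ / 2 := by
    have hcont : ContinuousOn (fun x => ∫ t in (0 : ℝ)..x, ‖T' t‖) (Icc 0 L) :=
      (intervalIntegral.continuous_primitive hii 0).continuousOn
    have := intermediate_value_Icc hL.le hcont
    apply this
    simp only [intervalIntegral.integral_same]
    constructor <;> linarith
  have hadd : ∀ a b d, (∫ t in a..b, ‖T' t‖) + ∫ t in b..d, ‖T' t‖ = ∫ t in a..d, ‖T' t‖ :=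
    fun a b d => intervalIntegral.integral_add_adjacent_intervals (hii _ _) (hii _ _)
  have hcL2 : ∫ t in c..L, ‖T' t‖ = ℓ / 2 := by
    have := hadd 0 c L
    linarith
  have pos_of : ∀ x : E, ‖x‖ = 1 → InnerProductGeometry.angle (T 0) x +
      InnerProductGeometry.angle x (T c) < π → 0 < ⟪T 0 + T c, x⟫_ℝ := by
    intro x hx h
    have h2 : InnerProductGeometry.angle (T 0) x < π - InnerProductGeometry.angle x (T c) := by
      linarith
    have h3 := Real.cos_lt_cos_of_nonneg_of_le_pi (InnerProductGeometry.angle_nonneg (T 0) x)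
      (by linarith [InnerProductGeometry.angle_nonneg x (T c)]) h2
    rw [Real.cos_pi_sub, InnerProductGeometry.cos_angle, InnerProductGeometry.cos_angle, hx, h1,
      h1] at h3
    rw [inner_add_left, real_inner_comm x (T c)]
    simp only [mul_one, div_one] at h3
    linarith
  have hall : ∀ t ∈ Icc 0 L, 0 < ⟪T 0 + T c, T t⟫_ℝ := by
    intro t ht
    apply pos_of _ (h1 t)
    rcases le_total t c with h | h
    · have a1 := angle_le_integral hT hc h1 ht.1
      have a2 := angle_le_integral hT hc h1 h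
      have := hadd 0 t c
      linarith
    · have a1 := angle_le_integral hT hc h1 h
      have a2 := angle_le_integral hT hc h1 ht.2
      rw [hper] at a2
      have := hadd c t L
      rw [InnerProductGeometry.angle_comm (T 0), InnerProductGeometry.angle_comm (T t) (T c)]
      linarith
  have hi : ∫ t in (0 : ℝ)..L, v t * ⟪T 0 + T c, T t⟫_ℝ = 0 := by
    have h2 : ∀ t, v t * ⟪T 0 + T c, T t⟫_ℝ = innerSL ℝ (T 0 + T c) (v t • T t) := by
      intro t
      simp [inner_add_left]
    simp_rw [h2]
    rw [ContinuousLinearMap.intervalIntegral_comp_comm, hint, map_zero]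
    apply Continuous.intervalIntegrable
    fun_prop
  have hpos' : 0 < ∫ t in (0 : ℝ)..L, v t * ⟪T 0 + T c, T t⟫_ℝ := by
    apply intervalIntegral.intervalIntegral_pos_of_pos_on
    · apply Continuous.intervalIntegrable
      fun_prop
    · intro t ht
      exact mul_pos (hpos t) (hall t ⟨ht.1.le, ht.2.le⟩)
    · exact hL
  linarith

end Pool.Agent.H906R2.Frenet
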