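import Pool.Agent.H906R2.Frenet.FrameDefs
import Pool.Agent.H906R2.Frenet.Fenchel

set_option autoImplicit false

open Real Set MeasureTheory InnerProductSpace
open scoped InnerProductSpace ContDiff

namespace Pool.Agent.H906R2.Frenet

section

variable {n : ℕ} {γ : ℝ → EuclideanSpace ℝ (Fin n)}

/-- The derivatives. -/
noncomputable def dv (γ : ℝ → EuclideanSpace ℝ (Fin n)) (t : ℝ) (i : Fin n) :
    EuclideanSpace ℝ (Fin n) := iteratedDeriv (i + 1) γ t

theorem dv_smooth (hγ : ContDiff ℝ ∞ γ) (i : Fin n) : ContDiff ℝ ∞ (fun t => dv γ t i) := by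
  unfold dv
  rw [iteratedDeriv_eq_iterate]
  exact hγ.iterate_deriv _

theorem gs_ne_zero (hnd : Nondegenerate γ) (t : ℝ) (i : Fin n) :
    gramSchmidt ℝ (dv γ t) i ≠ 0 :=
  gramSchmidt_ne_zero i (hnd t)

theorem gs_smooth (hγ : ContDiff ℝ ∞ γ) (hnd : Nondegenerate γ) (i : Fin n) :
    ContDiff ℝ ∞ (fun t => gramSchmidt ℝ (dv γ t) i) := by
  induction i using WellFoundedLT.induction with
  | ind i ih =>
    have e : (fun t => gramSchmidt ℝ (dv γ t) i) = fun t => dv γ t i - ∑ j ∈ Finset.Iio i,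
        (⟪gramSchmidt ℝ (dv γ t) j, dv γ t i⟫_ℝ / (‖gramSchmidt ℝ (dv γ t) j‖) ^ 2) •
          gramSchmidt ℝ (dv γ t) j := by
      funext t
      have := gramSchmidt_def'' ℝ (dv γ t) i
      rw [eq_sub_iff_add_eq]
      exact this.symm
    rw [e]
    refine (dv_smooth hγ i).sub (ContDiff.sum fun j hj => ?_)
    have hj' := ih j (Finset.mem_Iio.1 hj)
    refine ContDiff.smul (ContDiff.div (hj'.inner ℝ (dv_smooth hγ i)) (hj'.norm_sq ℝ) ?_) hj'
    intro t
    have := gs_ne_zero hnd t j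
    positivity

theorem frenet_eq (t : ℝ) (i : Fin n) :
    frenet γ t i = ‖gramSchmidt ℝ (dv γ t) i‖⁻¹ • gramSchmidt ℝ (dv γ t) i := rfl

theorem frenet_smooth (hγ : ContDiff ℝ ∞ γ) (hnd : Nondegenerate γ) (i : Fin n) :
    ContDiff ℝ ∞ (fun t => frenet γ t i) := by
  simp only [frenet_eq]
  refine ContDiff.smul (ContDiff.inv ((gs_smooth hγ hnd i).norm ℝ ?_) ?_) (gs_smooth hγ hnd i)
  · exact fun t => gs_ne_zero hnd t i
  · exact fun t => norm_ne_zero_iff.2 (gs_ne_zero hnd t i)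

theorem frenet_norm (hnd : Nondegenerate γ) (t : ℝ) (i : Fin n) : ‖frenet γ t i‖ = 1 :=
  gramSchmidtNormed_unit_length i (hnd t)

theorem frenet_orth (hnd : Nondegenerate γ) (t : ℝ) {i j : Fin n} (hij : i ≠ j) :
    ⟪frenet γ t i, frenet γ t j⟫_ℝ = 0 :=
  (gramSchmidtNormed_orthonormal (hnd t)).2 hij

/-- `⟨f_i, e_j⟩ = 0` for `i < j`. -/
theorem inner_dv_lt (t : ℝ) {i j : Fin n} (hij : i < j) : ⟪dv γ t i, frenet γ t j⟫_ℝ = 0 := by
  rw [frenet_eq, real_inner_smul_right, real_inner_comm, gramSchmidt_inv_triangular ℝ _ hij,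
    mul_zero]

/-- `⟨f_i, e_i⟩ > 0`. -/
theorem inner_dv_self (hnd : Nondegenerate γ) (t : ℝ) (i : Fin n) :
    0 < ⟪dv γ t i, frenet γ t i⟫_ℝ := by
  have h0 := gs_ne_zero hnd t i
  have e : ⟪gramSchmidt ℝ (dv γ t) i, dv γ t i⟫_ℝ = ‖gramSchmidt ℝ (dv γ t) i‖ ^ 2 := by
    conv_lhs => rw [gramSchmidt_def'' ℝ (dv γ t) i]
    rw [inner_add_right, real_inner_self_eq_norm_sq, inner_sum]
    rw [Finset.sum_eq_zero, add_zero]
    intro k hk
    rw [real_inner_smul_right, gramSchmidt_orthogonal ℝ _ (Finset.mem_Iio.1 hk).ne', mul_zero]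
  rw [frenet_eq, real_inner_smul_right, real_inner_comm, e]
  positivity

theorem hasDerivAt_dv (hγ : ContDiff ℝ ∞ γ) (t : ℝ) (i : ℕ) (h : i + 1 < n) :
    HasDerivAt (fun s => dv γ s ⟨i, by omega⟩) (dv γ t ⟨i + 1, h⟩) t := by
  have h1 : DifferentiableAt ℝ (iteratedDeriv (i + 1) γ) t :=
    (hγ.differentiable_iteratedDeriv (i + 1) (by exact_mod_cast ENat.natCast_lt_top _)) t
  have h2 := h1.hasDerivAt
  rw [← iteratedDeriv_succ] at h2
  exact h2


theorem gs_zero (t : ℝ) (h0 : 0 < n) : gramSchmidt ℝ (dv γ t) ⟨0, h0⟩ = dv γ t ⟨0, h0⟩ := by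
  have := gramSchmidt_def'' ℝ (dv γ t) ⟨0, h0⟩
  have e : Finset.Iio (⟨0, h0⟩ : Fin n) = ∅ := by
    ext j
    simp [Fin.lt_def]
  rw [e, Finset.sum_empty, add_zero] at this
  exact this.symm

theorem dv_one (t : ℝ) (h1 : 1 < n) :
    dv γ t ⟨1, h1⟩ = gramSchmidt ℝ (dv γ t) ⟨1, h1⟩
      + (⟪dv γ t ⟨0, by omega⟩, dv γ t ⟨1, h1⟩⟫_ℝ / ‖dv γ t ⟨0, by omega⟩‖ ^ 2) •
        dv γ t ⟨0, by omega⟩ := by
  have := gramSchmidt_def'' ℝ (dv γ t) ⟨1, h1⟩
  have e : Finset.Iio (⟨1, h1⟩ : Fin n) = {⟨0, by omega⟩} := by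
    ext j
    simp [Fin.lt_def, Fin.ext_iff]
  rw [e, Finset.sum_singleton, gs_zero] at this
  exact this

theorem dv_zero_ne (hnd : Nondegenerate γ) (t : ℝ) (h0 : 0 < n) : dv γ t ⟨0, h0⟩ ≠ 0 := by
  rw [← gs_zero t h0]
  exact gs_ne_zero hnd t _

/-- The second curvature does not vanish. -/
theorem curv_one_ne (hγ : ContDiff ℝ ∞ γ) (hnd : Nondegenerate γ) (h3 : 2 < n) (t : ℝ) :
    ⟪deriv (fun s => frenet γ s ⟨1, by omega⟩) t, frenet γ t ⟨2, h3⟩⟫_ℝ ≠ 0 := by
  set w := frenet γ t ⟨2, h3⟩ with hw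
  set a : ℝ → ℝ := fun s => ‖gramSchmidt ℝ (dv γ s) ⟨1, by omega⟩‖⁻¹ with ha
  set c : ℝ → ℝ := fun s => ⟪dv γ s ⟨0, by omega⟩, dv γ s ⟨1, by omega⟩⟫_ℝ /
    ‖dv γ s ⟨0, by omega⟩‖ ^ 2 with hc
  have hdiff : ∀ {F : Type} [NormedAddCommGroup F] [NormedSpace ℝ F] {f : ℝ → F},
      ContDiff ℝ ∞ f → DifferentiableAt ℝ f t := fun hf =>
    (hf.differentiable (by simp)) t
  have ha' : DifferentiableAt ℝ a t := hdiff (ContDiff.inv ((gs_smooth hγ hnd _).norm ℝ
    (fun t => gs_ne_zero hnd t _)) (fun t => norm_ne_zero_iff.2 (gs_ne_zero hnd t _)))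
  have hc' : DifferentiableAt ℝ c t := by
    apply hdiff
    refine ContDiff.div ((dv_smooth hγ _).inner ℝ (dv_smooth hγ _)) ((dv_smooth hγ _).norm_sq ℝ) ?_
    intro s
    have := dv_zero_ne hnd s (by omega)
    positivity
  have h0 : HasDerivAt (fun s => ⟪dv γ s ⟨0, by omega⟩, w⟫_ℝ) ⟪dv γ t ⟨1, by omega⟩, w⟫_ℝ t := by
    have := (hasDerivAt_dv hγ t 0 (by omega)).inner ℝ (hasDerivAt_const t w)
    simpa using this
  have h1 : HasDerivAt (fun s => ⟪dv γ s ⟨1, by omega⟩, w⟫_ℝ) ⟪dv γ t ⟨2, h3⟩, w⟫_ℝ t := by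
    have := (hasDerivAt_dv hγ t 1 h3).inner ℝ (hasDerivAt_const t w)
    simpa using this
  have z0 : ⟪dv γ t ⟨0, by omega⟩, w⟫_ℝ = 0 := inner_dv_lt t (by simp [Fin.lt_def])
  have z1 : ⟪dv γ t ⟨1, by omega⟩, w⟫_ℝ = 0 := inner_dv_lt t (by simp [Fin.lt_def])
  have z2 : 0 < ⟪dv γ t ⟨2, h3⟩, w⟫_ℝ := inner_dv_self hnd t _
  have hφ : HasDerivAt (fun s => a s * (⟪dv γ s ⟨1, by omega⟩, w⟫_ℝ
      - c s * ⟪dv γ s ⟨0, by omega⟩, w⟫_ℝ)) (a t * ⟪dv γ t ⟨2, h3⟩, w⟫_ℝ) t := by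
    have := ha'.hasDerivAt.mul (h1.sub (hc'.hasDerivAt.mul h0))
    refine this.congr_deriv ?_
    simp only [Pi.sub_apply, Pi.mul_apply]
    rw [z0, z1]
    ring
  have hφ2 : (fun s => a s * (⟪dv γ s ⟨1, by omega⟩, w⟫_ℝ - c s * ⟪dv γ s ⟨0, by omega⟩, w⟫_ℝ))
      = fun s => ⟪frenet γ s ⟨1, by omega⟩, w⟫_ℝ := by
    funext s
    have e := dv_one (γ := γ) s (by omega : 1 < n)
    rw [frenet_eq, real_inner_smul_left]
    have e2 : gramSchmidt ℝ (dv γ s) ⟨1, by omega⟩ = dv γ s ⟨1, by omega⟩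
        - c s • dv γ s ⟨0, by omega⟩ := by
      rw [eq_sub_iff_add_eq]; exact e.symm
    conv_rhs => rw [e2, inner_sub_left, real_inner_smul_left]
    simp only [ha, e2]
  rw [hφ2] at hφ
  have hψ := ((hdiff (frenet_smooth hγ hnd ⟨1, by omega⟩)).hasDerivAt).inner ℝ
    (hasDerivAt_const t w)
  simp only [inner_zero_right, zero_add] at hψ
  have := hψ.unique hφ
  rw [this]
  apply ne_of_gt
  apply mul_pos _ z2
  have := gs_ne_zero hnd t ⟨1, by omega⟩
  positivity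

/-- The derivative of the unit tangent is a multiple of the second frame vector. -/
theorem norm_deriv_tangent (hγ : ContDiff ℝ ∞ γ) (hnd : Nondegenerate γ) (h2 : 1 < n) (t : ℝ) :
    ‖deriv (fun s => frenet γ s ⟨0, by omega⟩) t‖ =
      |⟪deriv (fun s => frenet γ s ⟨0, by omega⟩) t, frenet γ t ⟨1, h2⟩⟫_ℝ| := by
  have hdiff : ∀ {F : Type} [NormedAddCommGroup F] [NormedSpace ℝ F] {f : ℝ → F},
      ContDiff ℝ ∞ f → DifferentiableAt ℝ f t := fun hf =>
    (hf.differentiable (by simp)) t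
  set a : ℝ → ℝ := fun s => ‖gramSchmidt ℝ (dv γ s) ⟨0, by omega⟩‖⁻¹ with ha
  have ha' : DifferentiableAt ℝ a t := hdiff (ContDiff.inv ((gs_smooth hγ hnd _).norm ℝ
    (fun t => gs_ne_zero hnd t _)) (fun t => norm_ne_zero_iff.2 (gs_ne_zero hnd t _)))
  have hT : HasDerivAt (fun s => frenet γ s ⟨0, by omega⟩)
      (a t • dv γ t ⟨1, h2⟩ + deriv a t • dv γ t ⟨0, by omega⟩) t := by
    have := ha'.hasDerivAt.smul (hasDerivAt_dv hγ t 0 h2)
    refine HasDerivAt.congr_of_eventuallyEq this (Filter.Eventually.of_forall fun s => ?_)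
    simp only [frenet_eq, gs_zero, ha, Pi.smul_apply']
  have g0 := norm_ne_zero_iff.2 (gs_ne_zero hnd t ⟨0, by omega⟩)
  have g1 := norm_ne_zero_iff.2 (gs_ne_zero hnd t ⟨1, h2⟩)
  have f0 : dv γ t ⟨0, by omega⟩ = ‖gramSchmidt ℝ (dv γ t) ⟨0, by omega⟩‖ •
      frenet γ t ⟨0, by omega⟩ := by
    rw [frenet_eq, smul_smul, mul_inv_cancel₀ g0, one_smul, gs_zero]
  have f1 : gramSchmidt ℝ (dv γ t) ⟨1, h2⟩ = ‖gramSchmidt ℝ (dv γ t) ⟨1, h2⟩‖ •
      frenet γ t ⟨1, h2⟩ := by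
    rw [frenet_eq, smul_smul, mul_inv_cancel₀ g1, one_smul]
  obtain ⟨α, β, hαβ⟩ : ∃ α β : ℝ, deriv (fun s => frenet γ s ⟨0, by omega⟩) t
      = α • frenet γ t ⟨0, by omega⟩ + β • frenet γ t ⟨1, h2⟩ := by
    set c := ⟪dv γ t ⟨0, by omega⟩, dv γ t ⟨1, h2⟩⟫_ℝ / ‖dv γ t ⟨0, by omega⟩‖ ^ 2 with hc
    refine ⟨(a t * c + deriv a t) * ‖gramSchmidt ℝ (dv γ t) ⟨0, by omega⟩‖,
      a t * ‖gramSchmidt ℝ (dv γ t) ⟨1, h2⟩‖, ?_⟩
    rw [hT.deriv, dv_one t h2, ← hc, mul_smul, mul_smul, ← f0, ← f1]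
    module
  have hn0 := frenet_norm hnd t ⟨0, by omega⟩
  have hn1 := frenet_norm hnd t ⟨1, h2⟩
  have ho : ⟪frenet γ t ⟨0, by omega⟩, frenet γ t ⟨1, h2⟩⟫_ℝ = 0 :=
    frenet_orth hnd t (by simp [Fin.ext_iff])
  have horth : ⟪deriv (fun s => frenet γ s ⟨0, by omega⟩) t, frenet γ t ⟨0, by omega⟩⟫_ℝ = 0 := by
    have hd := (hdiff (frenet_smooth hγ hnd ⟨0, by omega⟩)).hasDerivAt
    have h1 := hd.inner ℝ hd
    have e : (fun s => ⟪frenet γ s ⟨0, by omega⟩, frenet γ s ⟨0, by omega⟩⟫_ℝ)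
        = fun _ : ℝ => (1 : ℝ) := by
      funext s
      rw [real_inner_self_eq_norm_sq, frenet_norm hnd, one_pow]
    rw [e] at h1
    have h2 := h1.unique (hasDerivAt_const t (1 : ℝ))
    rw [real_inner_comm] at h2
    linarith
  have hα : α = 0 := by
    rw [hαβ, inner_add_left, real_inner_smul_left, real_inner_smul_left,
      real_inner_self_eq_norm_sq, hn0, real_inner_comm, ho] at horth
    linarith
  rw [hα, zero_smul, zero_add] at hαβ
  rw [hαβ, norm_smul, real_inner_smul_left, real_inner_self_eq_norm_sq, hn1]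
  simp

theorem curvature_continuous (hγ : ContDiff ℝ ∞ γ) (hnd : Nondegenerate γ) (i : ℕ) :
    Continuous (curvature γ i) := by
  unfold curvature
  split_ifs with h
  · refine Continuous.div ?_ ?_ ?_
    · exact ((frenet_smooth hγ hnd _).continuous_deriv (by simp)).inner
        (frenet_smooth hγ hnd _).continuous
    · exact (hγ.continuous_deriv (by simp)).norm
    · intro t
      have := dv_zero_ne hnd t (by omega)
      simpa [dv] using this
  · exact continuous_const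

/-- The length of the Frenet frame of a nondegenerate closed curve in `ℝⁿ`, `n ≥ 3`, exceeds
`2π`. -/
theorem two_pi_lt_frameLength (hγ : IsClosedCurve γ) (hnd : Nondegenerate γ) (h3 : 2 < n) :
    2 * π < frameLength γ := by
  obtain ⟨hs, hp⟩ := hγ
  have hπ := Real.pi_pos
  have hdc : Continuous (deriv γ) := hs.continuous_deriv (by simp)
  have hd0 : ∀ t, dv γ t ⟨0, by omega⟩ = deriv γ t := fun t => by simp [dv]
  have hne : ∀ t, 0 < ‖deriv γ t‖ := fun t => by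
    rw [← hd0]
    exact norm_pos_iff.2 (dv_zero_ne hnd t (by omega))
  set T : ℝ → EuclideanSpace ℝ (Fin n) := fun s => frenet γ s ⟨0, by omega⟩ with hTdef
  have hTs : ContDiff ℝ ∞ T := frenet_smooth hs hnd _
  have hT : ∀ t, HasDerivAt T (deriv T t) t := fun t =>
    ((hTs.differentiable (by simp)) t).hasDerivAt
  have hTc : Continuous (deriv T) := hTs.continuous_deriv (by simp)
  have hTe : ∀ t, ‖deriv γ t‖ • T t = deriv γ t := by
    intro t
    simp only [hTdef, frenet_eq, gs_zero, hd0]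
    rw [smul_smul, mul_inv_cancel₀ (hne t).ne', one_smul]
  have hderper : Function.Periodic (deriv γ) (2 * π) := by
    intro t
    have h : (fun s => γ (s + 2 * π)) = γ := funext hp
    rw [← deriv_comp_add_const, h]
  have hfen : 2 * π ≤ ∫ t in (0 : ℝ)..2 * π, ‖deriv T t‖ := by
    refine fenchel hT hTc (fun t => frenet_norm hnd t _) (v := fun t => ‖deriv γ t‖) hdc.norm hne
      (by positivity) ?_ ?_
    · have e : ∀ t, T t = ‖deriv γ t‖⁻¹ • deriv γ t := by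
        intro t
        rw [← hTe t, norm_smul, norm_norm, frenet_norm hnd, mul_one, smul_smul,
          inv_mul_cancel₀ (hne t).ne', one_smul]
      rw [e, e]
      have := hderper 0
      rw [zero_add] at this
      rw [this]
    · simp_rw [hTe]
      rw [intervalIntegral.integral_deriv_eq_sub]
      · have := hp 0
        rw [zero_add] at this
        rw [this, sub_self]
      · exact fun t _ => (hs.differentiable (by simp)) t
      · exact hdc.intervalIntegrable _ _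
  have hcont : Continuous fun t => √(∑ i ∈ Finset.range (n - 1), curvature γ i t ^ 2)
      * ‖deriv γ t‖ := by
    refine Continuous.mul (Continuous.sqrt ?_) hdc.norm
    exact continuous_finsetSum _ fun i _ => (curvature_continuous hs hnd i).pow 2
  have hlt : ∀ t, ‖deriv T t‖ < √(∑ i ∈ Finset.range (n - 1), curvature γ i t ^ 2)
      * ‖deriv γ t‖ := by
    intro t
    have k0 : |curvature γ 0 t| * ‖deriv γ t‖ = ‖deriv T t‖ := by
      rw [hTdef, norm_deriv_tangent hs hnd (by omega) t]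
      unfold curvature
      rw [dif_pos (by omega), abs_div, abs_of_pos (hne t), div_mul_cancel₀ _ (hne t).ne']
    have k1 : curvature γ 1 t ≠ 0 := by
      unfold curvature
      rw [dif_pos (by omega)]
      exact div_ne_zero (curv_one_ne hs hnd h3 t) (hne t).ne'
    rw [← k0]
    apply mul_lt_mul_of_pos_right _ (hne t)
    rw [← Real.sqrt_sq_eq_abs]
    apply Real.sqrt_lt_sqrt (sq_nonneg _)
    have h01 : ({0, 1} : Finset ℕ) ⊆ Finset.range (n - 1) := by
      intro i hi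
      simp only [Finset.mem_insert, Finset.mem_singleton] at hi
      rw [Finset.mem_range]
      omega
    have := Finset.sum_le_sum_of_subset_of_nonneg h01
      (f := fun i => curvature γ i t ^ 2) (fun i _ _ => sq_nonneg _)
    rw [Finset.sum_pair (by norm_num)] at this
    have k2 : 0 < curvature γ 1 t ^ 2 := by positivity
    linarith
  refine lt_of_le_of_lt hfen ?_
  unfold frameLength
  apply intervalIntegral.integral_lt_integral_of_continuousOn_of_le_of_exists_lt (by positivity)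
    hTc.norm.continuousOn hcont.continuousOn
  · exact fun t _ => (hlt t).le
  · exact ⟨0, ⟨le_rfl, by positivity⟩, hlt 0⟩

end

end Pool.Agent.H906R2.Frenet
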