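import Pool.Agent.H906R2.Frenet.Defs

set_option autoImplicit false

open Real
open scoped InnerProductSpace

namespace Pool.Agent.H906R2.Frenet

/-- The Frenet frame `(e_1, …, e_n)` (numbered `0, …, n-1` here) of a curve in `ℝⁿ`: Gram-Schmidt
orthonormalisation of the derivatives of orders `1, …, n`. -/
noncomputable def frenet {n : ℕ} (γ : ℝ → EuclideanSpace ℝ (Fin n)) (t : ℝ) (i : Fin n) :
    EuclideanSpace ℝ (Fin n) :=
  InnerProductSpace.gramSchmidtNormed ℝ (fun i : Fin n => iteratedDeriv (i + 1) γ t) i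

/-- The curvature `κ_{i+1} = ⟨d e_{i+1} / ds, e_{i+2}⟩`, `i + 1 < n`, where `s` is arc length, so
that `d/ds = ‖γ'‖⁻¹ d/dt`. -/
noncomputable def curvature {n : ℕ} (γ : ℝ → EuclideanSpace ℝ (Fin n)) (i : ℕ) (t : ℝ) : ℝ :=
  if h : i + 1 < n then
    ⟪deriv (fun s => frenet γ s ⟨i, by omega⟩) t, frenet γ t ⟨i + 1, h⟩⟫_ℝ / ‖deriv γ t‖
  else 0

/-- The length `L(E) = ∫ (κ_1² + ⋯ + κ_{n-1}²)^{1/2} ds` of the Frenet frame of a closed curve in
`ℝⁿ`, with `ds = ‖γ'(t)‖ dt` on one period `[0, 2π]`. -/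
noncomputable def frameLength {n : ℕ} (γ : ℝ → EuclideanSpace ℝ (Fin n)) : ℝ :=
  ∫ t in (0 : ℝ)..2 * π, √(∑ i ∈ Finset.range (n - 1), curvature γ i t ^ 2) * ‖deriv γ t‖

end Pool.Agent.H906R2.Frenet
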