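import Pool.Agent.H906R2.Frenet.Defs

set_option autoImplicit false

open scoped ContDiff
open Real

namespace Pool.Agent.H906R2.Frenet

theorem two_le_inf : ((2 : ℕ) : WithTop ℕ∞) ≤ ∞ := by
  have := (WithTop.coe_le_coe (α := ℕ∞)).2 (le_top : (2 : ℕ∞) ≤ ⊤)
  exact this

/-- The trigonometric polynomials. -/
noncomputable def TP : Submodule ℝ (ℝ → ℝ) :=
  Submodule.span ℝ {f | ∃ k : ℕ, (f = fun t => cos (k * t)) ∨ (f = fun t => sin (k * t))}

theorem cos_mem (k : ℕ) : (fun t : ℝ => cos (k * t)) ∈ TP :=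
  Submodule.subset_span ⟨k, Or.inl rfl⟩

theorem sin_mem (k : ℕ) : (fun t : ℝ => sin (k * t)) ∈ TP :=
  Submodule.subset_span ⟨k, Or.inr rfl⟩

theorem TP_smooth {f : ℝ → ℝ} (hf : f ∈ TP) : ContDiff ℝ ∞ f := by
  induction hf using Submodule.span_induction with
  | mem f hf =>
    obtain ⟨k, rfl | rfl⟩ := hf <;> fun_prop
  | zero => exact contDiff_const
  | add f g _ _ hf hg => exact hf.add hg
  | smul a f _ hf => exact hf.const_smul a

theorem TP_periodic {f : ℝ → ℝ} (hf : f ∈ TP) : Function.Periodic f (2 * π) := by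
  induction hf using Submodule.span_induction with
  | mem f hf =>
    obtain ⟨k, rfl | rfl⟩ := hf
    · intro t
      simp only
      rw [mul_add]
      exact Real.cos_add_nat_mul_two_pi (k * t) k
    · intro t
      simp only
      rw [mul_add]
      exact Real.sin_add_nat_mul_two_pi (k * t) k
  | zero => intro t; rfl
  | add f g _ _ hf hg => intro t; simp [hf t, hg t]
  | smul a f _ hf => intro t; simp [hf t]

theorem periodic_deriv {f : ℝ → ℝ} {c : ℝ} (hf : Function.Periodic f c) :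
    Function.Periodic (deriv f) c := by
  intro t
  have h : (fun s => f (s + c)) = f := funext hf
  rw [← deriv_comp_add_const, h]

theorem periodic_iteratedDeriv {f : ℝ → ℝ} {c : ℝ} (hf : Function.Periodic f c) (j : ℕ) :
    Function.Periodic (iteratedDeriv j f) c := by
  induction j with
  | zero => simpa using hf
  | succ j ih => rw [iteratedDeriv_succ]; exact periodic_deriv ih

theorem TP_bdd {f : ℝ → ℝ} (hf : f ∈ TP) (j : ℕ) : ∃ C : ℝ, ∀ t, |iteratedDeriv j f t| ≤ C := by
  have hc : Continuous (iteratedDeriv j f) :=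
    (TP_smooth hf).continuous_iteratedDeriv j (by exact_mod_cast le_top)
  have hb := (periodic_iteratedDeriv (TP_periodic hf) j).isBounded_of_continuous
    (by positivity) hc
  obtain ⟨C, hC⟩ := hb.exists_norm_le
  exact ⟨C, fun t => hC _ ⟨t, rfl⟩⟩

/-- Solving `f'' + f = g(2t)` in the trigonometric polynomials. -/
theorem TP_solve {g : ℝ → ℝ} (hg : g ∈ TP) :
    ∃ f ∈ TP, ∀ t, iteratedDeriv 2 f t + f t = g (2 * t) := by
  induction hg using Submodule.span_induction with
  | mem g hg =>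
    obtain ⟨k, rfl | rfl⟩ := hg
    · refine ⟨(1 / (1 - 4 * (k : ℝ) ^ 2)) • fun t : ℝ => cos ((2 * k : ℕ) * t),
        TP.smul_mem _ (cos_mem _), ?_⟩
      intro t
      have hk : (1 - 4 * (k : ℝ) ^ 2) ≠ 0 := by
        intro h
        have : (1 : ℤ) - 4 * (k : ℤ) ^ 2 = 0 := by exact_mod_cast h
        omega
      have h2 : iteratedDeriv 2 (fun t : ℝ => cos ((2 * k : ℕ) * t)) t
          = - ((2 * k : ℕ) : ℝ) ^ 2 * cos ((2 * k : ℕ) * t) := by
        rw [iteratedDeriv_comp_const_mul Real.contDiff_cos]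
        have : iteratedDeriv 2 cos = fun x => - cos x := by
          rw [iteratedDeriv_succ, iteratedDeriv_one]
          simp
        rw [this]
        ring
      rw [iteratedDeriv_const_smul_field, h2]
      simp only [Pi.smul_apply, smul_eq_mul]
      have e : ((2 * k : ℕ) : ℝ) * t = (k : ℝ) * (2 * t) := by push_cast; ring
      rw [e]
      push_cast
      field_simp
      ring
    · refine ⟨(1 / (1 - 4 * (k : ℝ) ^ 2)) • fun t : ℝ => sin ((2 * k : ℕ) * t),
        TP.smul_mem _ (sin_mem _), ?_⟩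
      intro t
      have hk : (1 - 4 * (k : ℝ) ^ 2) ≠ 0 := by
        intro h
        have : (1 : ℤ) - 4 * (k : ℤ) ^ 2 = 0 := by exact_mod_cast h
        omega
      have h2 : iteratedDeriv 2 (fun t : ℝ => sin ((2 * k : ℕ) * t)) t
          = - ((2 * k : ℕ) : ℝ) ^ 2 * sin ((2 * k : ℕ) * t) := by
        rw [iteratedDeriv_comp_const_mul Real.contDiff_sin]
        have : iteratedDeriv 2 sin = fun x => - sin x := by
          rw [iteratedDeriv_succ, iteratedDeriv_one]
          simp
        rw [this]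
        ring
      rw [iteratedDeriv_const_smul_field, h2]
      simp only [Pi.smul_apply, smul_eq_mul]
      have e : ((2 * k : ℕ) : ℝ) * t = (k : ℝ) * (2 * t) := by push_cast; ring
      rw [e]
      push_cast
      field_simp
      ring
  | zero =>
    refine ⟨0, TP.zero_mem, ?_⟩
    intro t
    simp [iteratedDeriv_const_zero]
  | add g₁ g₂ _ _ h₁ h₂ =>
    obtain ⟨f₁, hf₁, e₁⟩ := h₁
    obtain ⟨f₂, hf₂, e₂⟩ := h₂
    refine ⟨f₁ + f₂, TP.add_mem hf₁ hf₂, ?_⟩
    intro t
    have s₁ : ContDiffAt ℝ 2 f₁ t := ((TP_smooth hf₁).of_le two_le_inf).contDiffAt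
    have s₂ : ContDiffAt ℝ 2 f₂ t := ((TP_smooth hf₂).of_le two_le_inf).contDiffAt
    rw [iteratedDeriv_add s₁ s₂, Pi.add_apply, Pi.add_apply, ← e₁ t, ← e₂ t]
    ring
  | smul a g _ h =>
    obtain ⟨f, hf, e⟩ := h
    refine ⟨a • f, TP.smul_mem _ hf, ?_⟩
    intro t
    rw [iteratedDeriv_const_smul_field, Pi.smul_apply, Pi.smul_apply, ← e t]
    simp only [smul_eq_mul]
    ring

/-- The covector form of nondegeneracy for a tuple of coordinate functions. -/
def ND {n : ℕ} (g : Fin n → ℝ → ℝ) : Prop :=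
  ∀ (t : ℝ) (v : Fin n → ℝ), (∀ j < n, ∑ i, v i * iteratedDeriv (j + 1) (g i) t = 0) → v = 0

/-- The curve with given coordinate functions. -/
noncomputable def mk {n : ℕ} (g : Fin n → ℝ → ℝ) (t : ℝ) : EuclideanSpace ℝ (Fin n) :=
  WithLp.toLp 2 fun i => g i t

theorem mk_smooth {n : ℕ} {g : Fin n → ℝ → ℝ} (hg : ∀ i, ContDiff ℝ ∞ (g i)) :
    ContDiff ℝ ∞ (mk g) := by
  unfold mk
  exact (PiLp.contDiff_toLp).comp (contDiff_pi.2 hg)

theorem mk_iteratedDeriv {n : ℕ} {g : Fin n → ℝ → ℝ} (hg : ∀ i, ContDiff ℝ ∞ (g i)) (j : ℕ) :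
    iteratedDeriv j (mk g) = mk (fun i => iteratedDeriv j (g i)) := by
  induction j with
  | zero => simp
  | succ j ih =>
    rw [iteratedDeriv_succ, ih]
    funext t
    have h : HasDerivAt (fun t => fun i => iteratedDeriv j (g i) t)
        (fun i => iteratedDeriv (j + 1) (g i) t) t := by
      rw [hasDerivAt_pi]
      intro i
      rw [iteratedDeriv_succ]
      apply DifferentiableAt.hasDerivAt
      exact ((hg i).differentiable_iteratedDeriv j (by exact_mod_cast ENat.natCast_lt_top j)) t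
    have h2 := (PiLp.hasStrictFDerivAt_toLp (𝕜 := ℝ) 2 
      (fun i => iteratedDeriv j (g i) t)).hasFDerivAt.comp_hasDerivAt t h
    exact h2.deriv

theorem nondegenerate_mk {n : ℕ} {g : Fin n → ℝ → ℝ} (hg : ∀ i, ContDiff ℝ ∞ (g i))
    (h : ND g) : Nondegenerate (mk g) := by
  intro t
  apply linearIndependent_of_top_le_span_of_card_eq_finrank
  · rw [top_le_iff, ← Submodule.orthogonal_eq_bot_iff, Submodule.eq_bot_iff]
    intro v hv
    have hv' : ∀ j < n, ∑ i, v i * iteratedDeriv (j + 1) (g i) t = 0 := by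
      intro j hj
      have h1 := (Submodule.mem_orthogonal _ _).1 hv (iteratedDeriv (j + 1) (mk g) t)
        (Submodule.subset_span ⟨⟨j, hj⟩, rfl⟩)
      rw [mk_iteratedDeriv hg] at h1
      simpa [mk, PiLp.inner_apply] using h1
    have := h t (fun i => v i) hv'
    ext i
    exact congrFun this i
  · simp

/-- The induction step: from `g` in `ℝⁿ` to `(cos, sin, ε f)` in `ℝⁿ⁺²`, where
`f'' + f = g(2t)`. -/
theorem ND_step {n : ℕ} {g f : Fin n → ℝ → ℝ} (hg : ∀ i, g i ∈ TP) (hf : ∀ i, f i ∈ TP)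
    (hfg : ∀ i t, iteratedDeriv 2 (f i) t + f i t = g i (2 * t)) (h : ND g) {ε : ℝ} (hε : ε ≠ 0) :
    ND (Fin.cons cos (Fin.cons sin (fun i t => ε * f i t)) : Fin (n + 2) → ℝ → ℝ) := by
  intro t v hv
  have hv' : ∀ j < n + 2, v 0 * iteratedDeriv (j + 1) cos t + (v 1 * iteratedDeriv (j + 1) sin t
      + ε * ∑ i : Fin n, v i.succ.succ * iteratedDeriv (j + 1) (f i) t) = 0 := by
    intro j hj
    have h1 := hv j hj
    rw [Fin.sum_univ_succ, Fin.sum_univ_succ] at h1
    simp only [Fin.cons_zero, Fin.cons_succ, iteratedDeriv_const_mul_field] at h1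
    rw [Finset.mul_sum]
    refine Eq.trans ?_ h1
    have e : ∀ i : Fin n, ε * (v i.succ.succ * iteratedDeriv (j + 1) (f i) t)
        = v i.succ.succ * (ε * iteratedDeriv (j + 1) (f i) t) := fun i => by ring
    rw [Finset.sum_congr rfl (fun i _ => e i)]
    rfl
  have hcos : ∀ j, iteratedDeriv (j + 2) cos t = - iteratedDeriv j cos t := by
    intro j
    rw [iteratedDeriv_succ', iteratedDeriv_succ']
    have : deriv (deriv cos) = fun x => - cos x := by
      rw [Real.deriv_cos']; simp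
    rw [this, iteratedDeriv_fun_neg]
  have hsin : ∀ j, iteratedDeriv (j + 2) sin t = - iteratedDeriv j sin t := by
    intro j
    rw [iteratedDeriv_succ', iteratedDeriv_succ']
    have : deriv (deriv sin) = fun x => - sin x := by
      rw [Real.deriv_sin]; simp
    rw [this, iteratedDeriv_fun_neg]
  have hfj : ∀ i j, iteratedDeriv (j + 2) (f i) t + iteratedDeriv j (f i) t
      = 2 ^ j * iteratedDeriv j (g i) (2 * t) := by
    intro i j
    have e1 : (fun t => g i (2 * t)) = fun t => iteratedDeriv 2 (f i) t + f i t :=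
      funext fun t => (hfg i t).symm
    have e2 := congrFun (iteratedDeriv_comp_const_mul (n := j) (f := g i)
      ((TP_smooth (hg i)).of_le (by exact_mod_cast le_top)) 2) t
    rw [← e2, e1]
    have hs : ContDiff ℝ ∞ (f i) := TP_smooth (hf i)
    have hs2 : ContDiff ℝ ∞ (iteratedDeriv 2 (f i)) := by
      rw [iteratedDeriv_eq_iterate]
      exact hs.iterate_deriv 2
    rw [iteratedDeriv_fun_add ((hs2.of_le (by exact_mod_cast le_top)).contDiffAt)
      ((hs.of_le (by exact_mod_cast le_top)).contDiffAt)]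
    congr 1
    rw [iteratedDeriv_eq_iterate, iteratedDeriv_eq_iterate, iteratedDeriv_eq_iterate,
      ← Function.iterate_add_apply]
  have hw : (fun i : Fin n => v i.succ.succ) = 0 := by
    apply h (2 * t)
    intro j hj
    have a := hv' j (by omega)
    have b := hv' (j + 2) (by omega)
    have c1 := hcos (j + 1)
    have c2 := hsin (j + 1)
    have e : j + 2 + 1 = j + 1 + 2 := by ring
    rw [e, c1, c2] at b
    have key : ε * (2 ^ (j + 1) * ∑ i : Fin n, v i.succ.succ * iteratedDeriv (j + 1) (g i) (2 * t))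
        = 0 := by
      have : ∑ i : Fin n, v i.succ.succ * iteratedDeriv (j + 1 + 2) (f i) t
          + ∑ i : Fin n, v i.succ.succ * iteratedDeriv (j + 1) (f i) t
          = 2 ^ (j + 1) * ∑ i : Fin n, v i.succ.succ * iteratedDeriv (j + 1) (g i) (2 * t) := by
        rw [← Finset.sum_add_distrib, Finset.mul_sum]
        apply Finset.sum_congr rfl
        intro i _
        have := hfj i (j + 1)
        linear_combination (v i.succ.succ) * this
      rw [← this]
      linear_combination a + b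
    have h2 : (2 : ℝ) ^ (j + 1) ≠ 0 := by positivity
    exact (mul_eq_zero.1 ((mul_eq_zero.1 key).resolve_left hε)).resolve_left h2
  have hw0 : ∀ i : Fin n, v i.succ.succ = 0 := fun i => congrFun hw i
  have a0 := hv' 0 (by omega)
  have a1 := hv' 1 (by omega)
  have d1 : iteratedDeriv (0 + 1) cos t = - sin t := by simp
  have d2 : iteratedDeriv (0 + 1) sin t = cos t := by simp
  have d3 : iteratedDeriv (1 + 1) cos t = - cos t := by
    have := hcos 0; simp
  have d4 : iteratedDeriv (1 + 1) sin t = - sin t := by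
    have := hsin 0; simp
  simp only [hw0, zero_mul, Finset.sum_const_zero, mul_zero, add_zero] at a0 a1
  rw [d1, d2] at a0
  rw [d3, d4] at a1
  have hsc := Real.sin_sq_add_cos_sq t
  have v0 : v 0 = 0 := by
    linear_combination (-sin t) * a0 - (cos t) * a1 - v 0 * hsc
  have v1 : v 1 = 0 := by
    linear_combination (cos t) * a0 - (sin t) * a1 - v 1 * hsc
  funext i
  refine Fin.cases ?_ (fun i => ?_) i
  · exact v0
  · refine Fin.cases ?_ (fun i => ?_) i
    · exact v1
    · exact hw0 i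

/-- The property carried by the induction: there is a nondegenerate curve in `ℝⁿ` whose coordinates
are trigonometric polynomials. -/
def P (n : ℕ) : Prop := ∃ g : Fin n → ℝ → ℝ, (∀ i, g i ∈ TP) ∧ ND g

theorem cons_mem {n : ℕ} {f : Fin n → ℝ → ℝ} (hf : ∀ i, f i ∈ TP) (ε : ℝ) (i : Fin (n + 2)) :
    (Fin.cons cos (Fin.cons sin (fun i t => ε * f i t)) : Fin (n + 2) → ℝ → ℝ) i ∈ TP := by
  refine Fin.cases ?_ (fun i => ?_) i
  · have := cos_mem 1
    simpa using this
  · refine Fin.cases ?_ (fun i => ?_) i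
    · have := sin_mem 1
      simpa using this
    · simp only [Fin.cons_succ]
      exact TP.smul_mem ε (hf i)

theorem P_step {n : ℕ} (h : P n) : P (n + 2) := by
  obtain ⟨g, hg, hnd⟩ := h
  choose f hf hfg using fun i => TP_solve (hg i)
  exact ⟨_, cons_mem hf 1, ND_step hg hf hfg hnd one_ne_zero⟩

theorem P_zero : P 0 := ⟨Fin.elim0, fun i => i.elim0, fun _ v _ => Subsingleton.elim v 0⟩

theorem P_two : P 2 := P_step P_zero

theorem solve3 {a1 a2 a3 b1 b2 b3 c1 c2 c3 x y z : ℝ} (h1 : x * a1 + y * a2 + z * a3 = 0)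
    (h2 : x * b1 + y * b2 + z * b3 = 0) (h3 : x * c1 + y * c2 + z * c3 = 0)
    (hd : 0 < a3 * (b1 * c2 - c1 * b2) - b3 * (a1 * c2 - c1 * a2) + c3 * (a1 * b2 - b1 * a2)) :
    x = 0 ∧ y = 0 ∧ z = 0 := by
  have hx : x * (a3 * (b1 * c2 - c1 * b2) - b3 * (a1 * c2 - c1 * a2) + c3 * (a1 * b2 - b1 * a2))
      = 0 := by
    linear_combination (b2 * c3 - b3 * c2) * h1 - (a2 * c3 - a3 * c2) * h2
      + (a2 * b3 - a3 * b2) * h3
  have hy : y * (a3 * (b1 * c2 - c1 * b2) - b3 * (a1 * c2 - c1 * a2) + c3 * (a1 * b2 - b1 * a2))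
      = 0 := by
    linear_combination -(b1 * c3 - b3 * c1) * h1 + (a1 * c3 - a3 * c1) * h2
      - (a1 * b3 - a3 * b1) * h3
  have hz : z * (a3 * (b1 * c2 - c1 * b2) - b3 * (a1 * c2 - c1 * a2) + c3 * (a1 * b2 - b1 * a2))
      = 0 := by
    linear_combination (b1 * c2 - b2 * c1) * h1 - (a1 * c2 - a2 * c1) * h2
      + (a1 * b2 - a2 * b1) * h3
  exact ⟨(mul_eq_zero.1 hx).resolve_right hd.ne', (mul_eq_zero.1 hy).resolve_right hd.ne',
    (mul_eq_zero.1 hz).resolve_right hd.ne'⟩

theorem itd_cos (a t : ℝ) :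
    iteratedDeriv 1 (fun t => cos (a * t)) t = - (a * sin (a * t)) ∧
    iteratedDeriv 2 (fun t => cos (a * t)) t = - (a ^ 2 * cos (a * t)) ∧
    iteratedDeriv 3 (fun t => cos (a * t)) t = a ^ 3 * sin (a * t) := by
  refine ⟨?_, ?_, ?_⟩
  · rw [iteratedDeriv_comp_const_mul Real.contDiff_cos]
    simp
  · rw [iteratedDeriv_comp_const_mul Real.contDiff_cos]
    have : iteratedDeriv 2 cos = fun x => - cos x := by
      rw [iteratedDeriv_succ, iteratedDeriv_one]
      simp
    rw [this]
    ring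
  · rw [iteratedDeriv_comp_const_mul Real.contDiff_cos]
    have : iteratedDeriv 3 cos = fun x => sin x := by
      rw [iteratedDeriv_succ, iteratedDeriv_succ, iteratedDeriv_one]
      simp
    rw [this]

theorem itd_sin (a t : ℝ) :
    iteratedDeriv 1 (fun t => sin (a * t)) t = a * cos (a * t) ∧
    iteratedDeriv 2 (fun t => sin (a * t)) t = - (a ^ 2 * sin (a * t)) ∧
    iteratedDeriv 3 (fun t => sin (a * t)) t = - (a ^ 3 * cos (a * t)) := by
  refine ⟨?_, ?_, ?_⟩
  · rw [iteratedDeriv_comp_const_mul Real.contDiff_sin]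
    simp
  · rw [iteratedDeriv_comp_const_mul Real.contDiff_sin]
    have : iteratedDeriv 2 sin = fun x => - sin x := by
      rw [iteratedDeriv_succ, iteratedDeriv_one]
      simp
    rw [this]
    ring
  · rw [iteratedDeriv_comp_const_mul Real.contDiff_sin]
    have : iteratedDeriv 3 sin = fun x => - cos x := by
      rw [iteratedDeriv_succ, iteratedDeriv_succ, iteratedDeriv_one]
      simp
    rw [this]
    ring

theorem itd_comb (k : ℕ) (a b c : ℝ) (f g : ℝ → ℝ) (hf : ContDiff ℝ ∞ f) (hg : ContDiff ℝ ∞ g)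
    (t : ℝ) : iteratedDeriv k (fun t => f (a * t) + c * g (b * t)) t
      = iteratedDeriv k (fun t => f (a * t)) t + c * iteratedDeriv k (fun t => g (b * t)) t := by
  have h1 : ContDiff ℝ ∞ (fun t => f (a * t)) := hf.comp (by fun_prop)
  have h2 : ContDiff ℝ ∞ (fun t => g (b * t)) := hg.comp (by fun_prop)
  have h3 : ContDiff ℝ ∞ (fun t => c * g (b * t)) := contDiff_const.mul h2
  rw [iteratedDeriv_fun_add ((h1.of_le (by exact_mod_cast le_top)).contDiffAt)
      ((h3.of_le (by exact_mod_cast le_top)).contDiffAt), iteratedDeriv_const_mul_field]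

theorem P_three : P 3 := by
  refine ⟨![fun t => cos (2 * t) + 2 * cos t, fun t => sin (2 * t) - 2 * sin t,
    fun t => sin (3 * t)], ?_, ?_⟩
  · intro i
    have c1 := cos_mem 1
    have c2 := cos_mem 2
    have s1 := sin_mem 1
    have s2 := sin_mem 2
    have s3 := sin_mem 3
    simp only [Nat.cast_one, one_mul, Nat.cast_ofNat] at c1 c2 s1 s2 s3
    fin_cases i
    · exact TP.add_mem c2 (TP.smul_mem 2 c1)
    · exact TP.sub_mem s2 (TP.smul_mem 2 s1)
    · exact s3
  · intro t v hv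
    have h1 := hv 0 (by norm_num)
    have h2 := hv 1 (by norm_num)
    have h3 := hv 2 (by norm_num)
    simp only [Fin.sum_univ_three, Matrix.cons_val_zero, Matrix.cons_val_one, Matrix.cons_val] at h1 h2 h3
    have e0 : (fun t : ℝ => cos (2 * t) + 2 * cos t) = fun t => cos (2 * t) + 2 * cos (1 * t) := by
      funext t; rw [one_mul]
    have e1 : (fun t : ℝ => sin (2 * t) - 2 * sin t) = fun t => sin (2 * t) + (-2) * sin (1 * t) := by
      funext t; rw [one_mul]; ring
    have cc := Real.contDiff_cos (n := ∞)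
    have ss := Real.contDiff_sin (n := ∞)
    rw [e0, e1, itd_comb _ _ _ _ _ _ cc cc, itd_comb _ _ _ _ _ _ ss ss] at h1 h2 h3
    simp only [zero_add, Nat.reduceAdd] at h1 h2 h3
    have o : (1 : ℝ) * t = t := one_mul t
    rw [(itd_cos 2 t).1, (itd_cos 1 t).1, (itd_sin 2 t).1, (itd_sin 1 t).1, (itd_sin 3 t).1,
      o] at h1
    rw [(itd_cos 2 t).2.1, (itd_cos 1 t).2.1, (itd_sin 2 t).2.1, (itd_sin 1 t).2.1,
      (itd_sin 3 t).2.1, o] at h2
    rw [(itd_cos 2 t).2.2, (itd_cos 1 t).2.2, (itd_sin 2 t).2.2, (itd_sin 1 t).2.2,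
      (itd_sin 3 t).2.2, o] at h3
    have q1 := Real.sin_sq_add_cos_sq t
    have q2 := Real.sin_sq_add_cos_sq (2 * t)
    have q3 := Real.sin_sq_add_cos_sq (3 * t)
    have r1 : cos (3 * t) = cos (2 * t) * cos t - sin (2 * t) * sin t := by
      rw [← Real.cos_add]; congr 1; ring
    have r2 : sin (3 * t) = sin (2 * t) * cos t + cos (2 * t) * sin t := by
      rw [← Real.sin_add]; congr 1; ring
    have hdet := solve3 h1 h2 h3 (by
      have e : 3 * cos (3 * t) * ((-(2 ^ 2 * cos (2 * t)) + 2 * -(1 ^ 2 * cos t)) *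
            (-(2 ^ 3 * cos (2 * t)) + -2 * -(1 ^ 3 * cos t)) -
          (2 ^ 3 * sin (2 * t) + 2 * (1 ^ 3 * sin t)) *
            (-(2 ^ 2 * sin (2 * t)) + -2 * -(1 ^ 2 * sin t)))
          - -(3 ^ 2 * sin (3 * t)) * ((-(2 * sin (2 * t)) + 2 * -(1 * sin t)) *
            (-(2 ^ 3 * cos (2 * t)) + -2 * -(1 ^ 3 * cos t)) -
          (2 ^ 3 * sin (2 * t) + 2 * (1 ^ 3 * sin t)) *
            (2 * cos (2 * t) + -2 * (1 * cos t)))
          + -(3 ^ 3 * cos (3 * t)) * ((-(2 * sin (2 * t)) + 2 * -(1 * sin t)) *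
            (-(2 ^ 2 * sin (2 * t)) + -2 * -(1 ^ 2 * sin t)) -
          (-(2 ^ 2 * cos (2 * t)) + 2 * -(1 ^ 2 * cos t)) *
            (2 * cos (2 * t) + -2 * (1 * cos t)))
          = 3 * (36 + 8 * cos (3 * t) ^ 2 - 8 * cos (3 * t)) := by
        have hP : ((-(2 * sin (2 * t)) + 2 * -(1 * sin t)) *
            (-(2 ^ 2 * sin (2 * t)) + -2 * -(1 ^ 2 * sin t)) -
          (-(2 ^ 2 * cos (2 * t)) + 2 * -(1 ^ 2 * cos t)) *
            (2 * cos (2 * t) + -2 * (1 * cos t))) = 4 - 4 * cos (3 * t) := by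
          linear_combination 8 * q2 - 4 * q1 + 4 * r1
        have hQ : ((-(2 * sin (2 * t)) + 2 * -(1 * sin t)) *
            (-(2 ^ 3 * cos (2 * t)) + -2 * -(1 ^ 3 * cos t)) -
          (2 ^ 3 * sin (2 * t) + 2 * (1 ^ 3 * sin t)) *
            (2 * cos (2 * t) + -2 * (1 * cos t))) = 12 * sin (3 * t) := by
          linear_combination -12 * r2
        have hR : ((-(2 ^ 2 * cos (2 * t)) + 2 * -(1 ^ 2 * cos t)) *
            (-(2 ^ 3 * cos (2 * t)) + -2 * -(1 ^ 3 * cos t)) -
          (2 ^ 3 * sin (2 * t) + 2 * (1 ^ 3 * sin t)) *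
            (-(2 ^ 2 * sin (2 * t)) + -2 * -(1 ^ 2 * sin t))) = 28 + 8 * cos (3 * t) := by
          linear_combination 32 * q2 - 4 * q1 - 8 * r1
        rw [hP, hQ, hR]
        linear_combination 108 * q3
      rw [e]
      nlinarith [sq_nonneg (cos (3 * t) - 1 / 2)])
    funext i
    fin_cases i
    · exact hdet.1
    · exact hdet.2.1
    · exact hdet.2.2

theorem P_all (n : ℕ) (hn : n ≠ 1) : P n := by
  induction n using Nat.strong_induction_on with
  | _ n ih =>
    match n, hn, ih with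
    | 0, _, _ => exact P_zero
    | 1, h, _ => exact absurd rfl h
    | 2, _, _ => exact P_two
    | 3, _, _ => exact P_three
    | (k + 4), _, ih => exact P_step (ih (k + 2) (by omega) (by omega))

theorem norm_le_sum {n : ℕ} (x : Fin n → ℝ) : ‖(WithLp.toLp 2 x : EuclideanSpace ℝ (Fin n))‖
    ≤ ∑ i, |x i| := by
  rw [EuclideanSpace.norm_eq]
  apply Real.sqrt_le_iff.2
  refine ⟨Finset.sum_nonneg (fun i _ => abs_nonneg _), ?_⟩
  simp only [Real.norm_eq_abs]
  exact Finset.sum_sq_le_sq_sum_of_nonneg (fun i _ => abs_nonneg _)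

/-- For `n ≥ 4`, the once traversed circle has nondegenerate perturbations in `ℝⁿ`. -/
theorem perturbable {n : ℕ} (hn : 4 ≤ n) : Perturbable n 1 := by
  obtain ⟨d, rfl⟩ : ∃ d, n = d + 2 := ⟨n - 2, by omega⟩
  obtain ⟨g, hg, hnd⟩ := P_all d (by omega)
  choose f hf hfg using fun i => TP_solve (hg i)
  intro k ε hε
  choose C hC using fun (i : Fin d) (j : ℕ) => TP_bdd (hf i) j
  -- a common bound
  obtain ⟨B, hB0, hB⟩ : ∃ B : ℝ, 0 < B ∧ ∀ j ≤ k, ∀ i : Fin d, ∀ t,
      |iteratedDeriv j (f i) t| ≤ B := by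
    refine ⟨∑ j ∈ Finset.range (k + 1), ∑ i : Fin d, |C i j| + 1, by positivity, ?_⟩
    intro j hj i t
    have h1 : |iteratedDeriv j (f i) t| ≤ |C i j| := (hC i j t).trans (le_abs_self _)
    have h2 : |C i j| ≤ ∑ i : Fin d, |C i j| :=
      Finset.single_le_sum (f := fun i => |C i j|) (fun i _ => abs_nonneg _) (Finset.mem_univ i)
    have h3 : ∑ i : Fin d, |C i j| ≤ ∑ j ∈ Finset.range (k + 1), ∑ i : Fin d, |C i j| :=
      Finset.single_le_sum (f := fun j => ∑ i : Fin d, |C i j|)
        (fun j _ => Finset.sum_nonneg (fun i _ => abs_nonneg _))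
        (Finset.mem_range.2 (by omega))
    linarith
  set δ : ℝ := ε / (2 * (B * (d + 1))) with hδ
  have hδ0 : 0 < δ := by positivity
  set G : Fin (d + 2) → ℝ → ℝ := Fin.cons cos (Fin.cons sin (fun i t => δ * f i t)) with hG
  have hGT : ∀ i, G i ∈ TP := cons_mem hf δ
  have hGs : ∀ i, ContDiff ℝ ∞ (G i) := fun i => TP_smooth (hGT i)
  refine ⟨mk G, ⟨mk_smooth hGs, ?_⟩, nondegenerate_mk hGs (ND_step hg hf hfg hnd hδ0.ne'), ?_⟩
  · intro t
    unfold mk
    congr 1
    funext i
    exact TP_periodic (hGT i) t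
  · intro j hj t
    set H : Fin (d + 2) → ℝ → ℝ := Fin.cons cos (Fin.cons sin (fun _ _ => 0)) with hH
    have hHT : ∀ i, H i ∈ TP := by
      intro i
      have h0 := cons_mem (f := fun _ : Fin d => (0 : ℝ → ℝ)) (fun _ => TP.zero_mem) 0 i
      have e : H = (Fin.cons cos (Fin.cons sin
          (fun (i : Fin d) t => (0 : ℝ) * (fun _ : Fin d => (0 : ℝ → ℝ)) i t)) :
          Fin (d + 2) → ℝ → ℝ) := by
        rw [hH]
        congr 2
        funext i t
        simp
      rw [e]
      exact h0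
    have hHs : ∀ i, ContDiff ℝ ∞ (H i) := fun i => TP_smooth (hHT i)
    have hcirc : circ (d + 2) 1 = mk H := by
      funext t
      unfold circ mk
      congr 1
      funext i
      refine Fin.cases ?_ (fun i => ?_) i
      · simp [hH]
      · refine Fin.cases ?_ (fun i => ?_) i
        · simp [hH]
        · simp [hH]
    rw [hcirc, mk_iteratedDeriv hGs, mk_iteratedDeriv hHs]
    have hd : mk (fun i => iteratedDeriv j (G i)) t - mk (fun i => iteratedDeriv j (H i)) t
        = WithLp.toLp 2 (fun i => iteratedDeriv j (G i) t - iteratedDeriv j (H i) t) := rfl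
    rw [hd]
    refine lt_of_le_of_lt (norm_le_sum _) ?_
    rw [Fin.sum_univ_succ, Fin.sum_univ_succ]
    have hz : ∀ i : Fin d, |iteratedDeriv j (G i.succ.succ) t - iteratedDeriv j (H i.succ.succ) t|
        ≤ δ * B := by
      intro i
      have e1 : G i.succ.succ = fun t => δ * f i t := rfl
      have e2 : H i.succ.succ = fun _ => 0 := rfl
      rw [e1, e2, iteratedDeriv_const_mul_field]
      have e3 : iteratedDeriv j (fun _ : ℝ => (0 : ℝ)) t = 0 := by
        rw [iteratedDeriv_const]; simp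
      rw [e3, sub_zero, abs_mul, abs_of_pos hδ0]
      exact mul_le_mul_of_nonneg_left (hB j hj i t) hδ0.le
    have hz' := Finset.sum_le_sum (s := Finset.univ) (fun i _ => hz i)
    have e0 : |iteratedDeriv j (G 0) t - iteratedDeriv j (H 0) t| = 0 := by
      have : G 0 = H 0 := rfl
      rw [this, sub_self, abs_zero]
    have e1 : |iteratedDeriv j (G (Fin.succ 0)) t - iteratedDeriv j (H (Fin.succ 0)) t| = 0 := by
      have : G (Fin.succ 0) = H (Fin.succ 0) := rfl
      rw [this, sub_self, abs_zero]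
    rw [e0, e1, zero_add, zero_add]
    refine lt_of_le_of_lt hz' ?_
    rw [Finset.sum_const, Finset.card_univ, Fintype.card_fin, nsmul_eq_mul]
    have : (d : ℝ) * (δ * B) = ε * (d / (2 * (d + 1))) := by
      rw [hδ]; field_simp
    rw [this]
    have h2 : (d : ℝ) / (2 * (d + 1)) < 1 := by
      rw [div_lt_one (by positivity)]
      have : (0 : ℝ) ≤ d := Nat.cast_nonneg d
      linarith
    calc ε * (d / (2 * (d + 1))) < ε * 1 := mul_lt_mul_of_pos_left h2 hε
      _ = ε := mul_one ε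

theorem isLeast_one {n : ℕ} (hn : 4 ≤ n) : IsLeast {m : ℕ | 1 ≤ m ∧ Perturbable n m} 1 :=
  ⟨⟨le_rfl, perturbable hn⟩, fun _ hm => hm.1⟩

theorem mu_eq_one {n : ℕ} (hn : 4 ≤ n) : mu n = 1 := (isLeast_one hn).csInf_eq

end Pool.Agent.H906R2.Frenet
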